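import Pool.Agent.Y320.CM.Basic2

/-!
# The matrix of a group element (problem MP_4f5047_al)
-/

set_option autoImplicit false
open Filter Topology

namespace Pool.Agent.Y369.CM

open Pool.Agent.Y320.CM

theorem mulVec_zero_eq (M : Matrix (Fin 2) (Fin 2) ℂ) (x : Fin 2 → ℂ) :
    (M.mulVec x) 0 = M 0 0 * x 0 + M 0 1 * x 1 := by
  simp [Matrix.mulVec, dotProduct, Fin.sum_univ_two]

theorem mulVec_one_eq (M : Matrix (Fin 2) (Fin 2) ℂ) (x : Fin 2 → ℂ) :
    (M.mulVec x) 1 = M 1 0 * x 0 + M 1 1 * x 1 := by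
  simp [Matrix.mulVec, dotProduct, Fin.sum_univ_two]

/-- determinant one matrices preserve the wedge -/
theorem wedge_mulVec (A : SL2) (x y : Fin 2 → ℂ) :
    wedge ((A : Matrix (Fin 2) (Fin 2) ℂ).mulVec x) ((A : Matrix (Fin 2) (Fin 2) ℂ).mulVec y) =
      wedge x y := by
  have h := A.det_coe
  rw [Matrix.det_fin_two] at h
  unfold wedge
  rw [mulVec_zero_eq, mulVec_zero_eq, mulVec_one_eq, mulVec_one_eq]
  linear_combination (x 0 * y 1 - x 1 * y 0) * h

theorem wedge_smul_left (c : ℂ) (x y : Fin 2 → ℂ) : wedge (c • x) y = c * wedge x y := by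
  unfold wedge; simp only [Pi.smul_apply, smul_eq_mul]; ring

theorem wedge_smul_right (c : ℂ) (x y : Fin 2 → ℂ) : wedge x (c • y) = c * wedge x y := by
  unfold wedge; simp only [Pi.smul_apply, smul_eq_mul]; ring

theorem wedge_self (x : Fin 2 → ℂ) : wedge x x = 0 := by
  unfold wedge; ring

/-- three lines can be moved to any three lines by a matrix of determinant one -/
theorem exists_sl (u1 u2 u3 w1 w2 w3 : Fin 2 → ℂ) (hu12 : wedge u1 u2 ≠ 0)
    (hu13 : wedge u1 u3 ≠ 0) (hu23 : wedge u2 u3 ≠ 0) (hw12 : wedge w1 w2 ≠ 0)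
    (hw13 : wedge w1 w3 ≠ 0) (hw23 : wedge w2 w3 ≠ 0) :
    ∃ (A : SL2) (c1 c2 c3 : ℂ), c1 ≠ 0 ∧ c2 ≠ 0 ∧ c3 ≠ 0 ∧
      (A : Matrix (Fin 2) (Fin 2) ℂ).mulVec u1 = c1 • w1 ∧
      (A : Matrix (Fin 2) (Fin 2) ℂ).mulVec u2 = c2 • w2 ∧
      (A : Matrix (Fin 2) (Fin 2) ℂ).mulVec u3 = c3 • w3 := by
  set d := wedge u1 u2 with hd
  set α := wedge w2 w3 / wedge u2 u3 with hα
  set β := wedge w1 w3 / wedge u1 u3 with hβ
  have hα0 : α ≠ 0 := div_ne_zero hw23 hu23
  have hβ0 : β ≠ 0 := div_ne_zero hw13 hu13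
  have hdet : α * β * wedge w1 w2 / d ≠ 0 :=
    div_ne_zero (mul_ne_zero (mul_ne_zero hα0 hβ0) hw12) hu12
  obtain ⟨s, hs⟩ := IsAlgClosed.exists_pow_nat_eq (α * β * wedge w1 w2 / d) (n := 2) (by norm_num)
  have hs0 : s ≠ 0 := by
    intro h
    rw [h] at hs
    exact hdet (by rw [← hs]; ring)
  let M : Matrix (Fin 2) (Fin 2) ℂ :=
    !![(α * w1 0 * u2 1 - β * w2 0 * u1 1) / (d * s), (- α * w1 0 * u2 0 + β * w2 0 * u1 0) / (d * s);
       (α * w1 1 * u2 1 - β * w2 1 * u1 1) / (d * s), (- α * w1 1 * u2 0 + β * w2 1 * u1 0) / (d * s)]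
  have hd1 : u1 0 * u2 1 - u1 1 * u2 0 = d := by rw [hd]; rfl
  have hM : M.det = 1 := by
    rw [Matrix.det_fin_two_of]
    have e1 : (α * w1 0 * u2 1 - β * w2 0 * u1 1) / (d * s) *
        ((- α * w1 1 * u2 0 + β * w2 1 * u1 0) / (d * s)) -
        (- α * w1 0 * u2 0 + β * w2 0 * u1 0) / (d * s) *
        ((α * w1 1 * u2 1 - β * w2 1 * u1 1) / (d * s)) =
        (α * β * wedge w1 w2 * (u1 0 * u2 1 - u1 1 * u2 0)) / (d * s) ^ 2 := by
      unfold wedge
      ring
    rw [e1, hd1, div_eq_one_iff_eq (pow_ne_zero 2 (mul_ne_zero hu12 hs0)), mul_pow, hs]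
    field_simp
  refine ⟨⟨M, hM⟩, α / s, β / s, wedge w1 w2 / (d * s), div_ne_zero hα0 hs0, div_ne_zero hβ0 hs0,
    div_ne_zero hw12 (mul_ne_zero hu12 hs0), ?_, ?_, ?_⟩
  · have hc : ∀ i : Fin 2, (M.mulVec u1) i = ((α / s) • w1) i := by
      intro i
      fin_cases i
      · show (M.mulVec u1) 0 = ((α / s) • w1) 0
        rw [mulVec_zero_eq]
        simp only [M, Matrix.of_apply, Matrix.cons_val', Matrix.cons_val_zero, Matrix.cons_val_one,
          Matrix.cons_val_fin_one, Pi.smul_apply, smul_eq_mul]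
        field_simp
        linear_combination α * w1 0 * hd1
      · show (M.mulVec u1) 1 = ((α / s) • w1) 1
        rw [mulVec_one_eq]
        simp only [M, Matrix.of_apply, Matrix.cons_val', Matrix.cons_val_zero, Matrix.cons_val_one,
          Matrix.cons_val_fin_one, Pi.smul_apply, smul_eq_mul]
        field_simp
        linear_combination α * w1 1 * hd1
    exact funext hc
  · have hc : ∀ i : Fin 2, (M.mulVec u2) i = ((β / s) • w2) i := by
      intro i
      fin_cases i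
      · show (M.mulVec u2) 0 = ((β / s) • w2) 0
        rw [mulVec_zero_eq]
        simp only [M, Matrix.of_apply, Matrix.cons_val', Matrix.cons_val_zero, Matrix.cons_val_one,
          Matrix.cons_val_fin_one, Pi.smul_apply, smul_eq_mul]
        field_simp
        linear_combination β * w2 0 * hd1
      · show (M.mulVec u2) 1 = ((β / s) • w2) 1
        rw [mulVec_one_eq]
        simp only [M, Matrix.of_apply, Matrix.cons_val', Matrix.cons_val_zero, Matrix.cons_val_one,
          Matrix.cons_val_fin_one, Pi.smul_apply, smul_eq_mul]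
        field_simp
        linear_combination β * w2 1 * hd1
    exact funext hc
  · have ha : α * (u3 0 * u2 1 - u3 1 * u2 0) = w3 0 * w2 1 - w3 1 * w2 0 := by
      rw [hα, div_mul_eq_mul_div, div_eq_iff hu23]
      unfold wedge
      ring
    have hb : β * (u1 0 * u3 1 - u1 1 * u3 0) = w1 0 * w3 1 - w1 1 * w3 0 := by
      rw [hβ, div_mul_eq_mul_div, div_eq_iff hu13]
      unfold wedge
      ring
    have hc : ∀ i : Fin 2, (M.mulVec u3) i = ((wedge w1 w2 / (d * s)) • w3) i := by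
      intro i
      fin_cases i
      · show (M.mulVec u3) 0 = ((wedge w1 w2 / (d * s)) • w3) 0
        rw [mulVec_zero_eq]
        simp only [M, Matrix.of_apply, Matrix.cons_val', Matrix.cons_val_zero, Matrix.cons_val_one,
          Matrix.cons_val_fin_one, Pi.smul_apply, smul_eq_mul]
        have e : (α * w1 0 * u2 1 - β * w2 0 * u1 1) / (d * s) * u3 0 +
            (- α * w1 0 * u2 0 + β * w2 0 * u1 0) / (d * s) * u3 1 =
            (w1 0 * (α * (u3 0 * u2 1 - u3 1 * u2 0)) +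
              w2 0 * (β * (u1 0 * u3 1 - u1 1 * u3 0))) / (d * s) := by ring
        rw [e, ha, hb, div_mul_eq_mul_div]
        congr 1
        unfold wedge
        ring
      · show (M.mulVec u3) 1 = ((wedge w1 w2 / (d * s)) • w3) 1
        rw [mulVec_one_eq]
        simp only [M, Matrix.of_apply, Matrix.cons_val', Matrix.cons_val_zero, Matrix.cons_val_one,
          Matrix.cons_val_fin_one, Pi.smul_apply, smul_eq_mul]
        have e : (α * w1 1 * u2 1 - β * w2 1 * u1 1) / (d * s) * u3 0 +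
            (- α * w1 1 * u2 0 + β * w2 1 * u1 0) / (d * s) * u3 1 =
            (w1 1 * (α * (u3 0 * u2 1 - u3 1 * u2 0)) +
              w2 1 * (β * (u1 0 * u3 1 - u1 1 * u3 0))) / (d * s) := by ring
        rw [e, ha, hb, div_mul_eq_mul_div]
        congr 1
        unfold wedge
        ring
    exact funext hc

theorem spin : S_SPIN := by
  intro G _ τ h1 hmul F hF hinv g
  have hinj : Function.Injective (τ g) := by
    intro x y hxy
    have := congrArg (τ g⁻¹) hxy
    rwa [← hmul, ← hmul, inv_mul_cancel, h1, h1] at this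
  have hF' : Function.Injective (fun a => F (τ g a)) := fun x y hxy => hinj (hF hxy)
  obtain ⟨a1, -⟩ := exists_new ∅
  obtain ⟨a2, ha2⟩ := exists_new {a1}
  obtain ⟨a3, ha3⟩ := exists_new {a1, a2}
  have h12 : a1 ≠ a2 := fun h => ha2 (by simp [h])
  have h13 : a1 ≠ a3 := fun h => ha3 (by simp [h])
  have h23 : a2 ≠ a3 := fun h => ha3 (by simp [h])
  have hu : ∀ x y : Sph, x ≠ y → wedge (sp (F x)) (sp (F y)) ≠ 0 := fun x y hxy h =>
    hxy (hF ((wedge_eq_zero_iff _ _).1 h))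
  have hw : ∀ x y : Sph, x ≠ y → wedge (sp (F (τ g x))) (sp (F (τ g y))) ≠ 0 := fun x y hxy h =>
    hxy (hF' ((wedge_eq_zero_iff _ _).1 h))
  obtain ⟨A, c1, c2, c3, hc1, hc2, hc3, hA1, hA2, hA3⟩ :=
    exists_sl (sp (F a1)) (sp (F a2)) (sp (F a3)) (sp (F (τ g a1))) (sp (F (τ g a2)))
      (sp (F (τ g a3))) (hu _ _ h12) (hu _ _ h13) (hu _ _ h23) (hw _ _ h12) (hw _ _ h13)
      (hw _ _ h23)
  refine ⟨A, ?_⟩
  intro a
  by_cases e1 : a = a1
  · subst e1
    rw [hA1, wedge_smul_left, wedge_self, mul_zero]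
  by_cases e2 : a = a2
  · subst e2
    rw [hA2, wedge_smul_left, wedge_self, mul_zero]
  by_cases e3 : a = a3
  · subst e3
    rw [hA3, wedge_smul_left, wedge_self, mul_zero]
  have hI := hinv g a1 a2 a3 a ⟨h12, h13, Ne.symm e1, h23, Ne.symm e2, Ne.symm e3⟩
  unfold chi at hI
  set x := sp (F a) with hx
  set s := sp (F (τ g a)) with hs
  set v := (A : Matrix (Fin 2) (Fin 2) ℂ).mulVec x with hv
  have k12 : wedge (sp (F a1)) (sp (F a2)) =
      c1 * (c2 * wedge (sp (F (τ g a1))) (sp (F (τ g a2)))) := by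
    rw [← wedge_mulVec A, hA1, hA2, wedge_smul_left, wedge_smul_right]
  have k13 : wedge (sp (F a1)) (sp (F a3)) =
      c1 * (c3 * wedge (sp (F (τ g a1))) (sp (F (τ g a3)))) := by
    rw [← wedge_mulVec A, hA1, hA3, wedge_smul_left, wedge_smul_right]
  have k3 : wedge (sp (F a3)) x = c3 * wedge (sp (F (τ g a3))) v := by
    rw [← wedge_mulVec A, hA3, wedge_smul_left]
  have k2 : wedge (sp (F a2)) x = c2 * wedge (sp (F (τ g a2))) v := by
    rw [← wedge_mulVec A, hA2, wedge_smul_left]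
  have n2 : wedge (sp (F a2)) x ≠ 0 := hu _ _ (Ne.symm e2)
  have n2' : wedge (sp (F (τ g a2))) s ≠ 0 := hw _ _ (Ne.symm e2)
  have n12 := hw _ _ h12
  have n13 := hw _ _ h13
  have n23 := hw _ _ h23
  have n2v : wedge (sp (F (τ g a2))) v ≠ 0 := by
    intro h
    apply n2
    rw [k2, h, mul_zero]
  rw [k12, k13, k3, k2] at hI
  rw [div_eq_div_iff (mul_ne_zero n13 n2')
    (mul_ne_zero (mul_ne_zero hc1 (mul_ne_zero hc3 n13)) (mul_ne_zero hc2 n2v))] at hI
  have hkey : wedge (sp (F (τ g a3))) s * wedge (sp (F (τ g a2))) v =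
      wedge (sp (F (τ g a3))) v * wedge (sp (F (τ g a2))) s := by
    have hne : wedge (sp (F (τ g a1))) (sp (F (τ g a2))) * wedge (sp (F (τ g a1))) (sp (F (τ g a3)))
        * (c1 * c2 * c3) ≠ 0 :=
      mul_ne_zero (mul_ne_zero n12 n13) (mul_ne_zero (mul_ne_zero hc1 hc2) hc3)
    apply mul_left_cancel₀ hne
    linear_combination hI
  have hpl : wedge (sp (F (τ g a3))) v * wedge (sp (F (τ g a2))) s -
      wedge (sp (F (τ g a3))) s * wedge (sp (F (τ g a2))) v =
      - wedge (sp (F (τ g a2))) (sp (F (τ g a3))) * wedge v s := by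
    unfold wedge
    ring
  have hz : - wedge (sp (F (τ g a2))) (sp (F (τ g a3))) * wedge v s = 0 := by
    rw [← hpl, hkey]; ring
  exact (mul_eq_zero.1 hz).resolve_left (neg_ne_zero.2 n23)

end Pool.Agent.Y369.CM
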